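import Pool.Agent.V1190.SpecIFS

open MeasureTheory Set Filter Topology
open scoped ENNReal NNReal
open Pool.Agent.V1190.SpecIFS

namespace Pool.Agent.Results.MP_906def_an.JumpAtHalf

/-- The dimension spectrum: the Hausdorff dimensions of the limit sets of all the subsystems
(the empty one included). -/
def DS {W : Type*} [NormedAddCommGroup W] [InnerProductSpace ℝ W] {E : Type*} (X : Set W)
    (φ : E → W → W) : Set ℝ :=
  {t | 0 ≤ t ∧ ∃ F : Set E, dimH (limitSet X φ F) = ENNReal.ofReal t}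

lemma zero_mem : (0 : ℝ) ∈ spectrum (Icc (0 : ℝ) 1) φ := by
  let e : Al := ⟨0, ⟨0, m_pos 0⟩⟩
  refine ⟨le_rfl, {e}, ⟨e, rfl⟩, ?_⟩
  rw [ENNReal.ofReal_zero]
  refine le_antisymm (le_of_forall_gt_imp_ge_of_dense fun t ht => ?_) zero_le
  by_cases htop : t = ⊤
  · rw [htop]; exact le_top
  · have h1 : dimH (limitSet (Icc (0 : ℝ) 1) φ {e}) ≤ ENNReal.ofReal t.toReal := by
      have h2 := ENNReal.toReal_pos ht.ne' htop
      apply dim_le h2
      unfold Pr
      have h3 : ∑' i : ({e} : Set Al), ENNReal.ofReal (r i ^ t.toReal) =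
          ENNReal.ofReal (r e ^ t.toReal) := tsum_singleton e
            (fun i : Al => ENNReal.ofReal (r i ^ t.toReal))
      rw [h3, ENNReal.ofReal_le_one]
      exact Real.rpow_le_one (r_pos e).le ((r_le e).trans (by norm_num)) h2.le
    rwa [ENNReal.ofReal_toReal htop] at h1

lemma DS_eq : DS (Icc (0 : ℝ) 1) φ = spectrum (Icc (0 : ℝ) 1) φ := by
  ext t
  constructor
  · rintro ⟨h0, F, hF⟩
    rcases F.eq_empty_or_nonempty with h | h
    · have h1 : limitSet (Icc (0 : ℝ) 1) φ F = ∅ := by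
        rw [h, eq_empty_iff_forall_notMem]
        rintro x ⟨w, hw, -⟩
        exact hw 0
      rw [h1, dimH_empty] at hF
      have h2 : t = 0 := le_antisymm (ENNReal.ofReal_eq_zero.1 hF.symm) h0
      rw [h2]
      exact zero_mem
    · exact ⟨h0, F, h, hF⟩
  · rintro ⟨h0, F, -, hF⟩
    exact ⟨h0, F, hF⟩

/-- There is a conformal iterated function system on the line (made of similarities of `[0,1]`)
whose dimension spectrum `F` has a point at which `x ↦ dim_x F` is discontinuous on `F`. -/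
theorem result : ∃ (E : Type) (X : Set ℝ) (φ : E → ℝ → ℝ), IsCIFS X φ ∧
    ∃ x ∈ DS X φ, ¬ ContinuousWithinAt (localDim (DS X φ)) (DS X φ) x := by
  refine ⟨Al, Icc 0 1, φ, isCIFS, 1 / 2, ?_, ?_⟩
  · rw [DS_eq]
    exact mem_spectrum_low (by norm_num) le_rfl
  · rw [DS_eq]
    intro hcont
    have h1 : (0 : ℝ≥0∞) < localDim (spectrum (Icc (0 : ℝ) 1) φ) (1 / 2) :=
      lt_of_lt_of_le one_pos localDim_half
    have h2 := hcont.eventually (lt_mem_nhds h1)
    obtain ⟨ε, hε, hball⟩ := Metric.mem_nhdsWithin_iff.1 h2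
    obtain ⟨x, hx, hx1, hx2⟩ := mem_spectrum_above hε
    have h3 : x ∈ Metric.ball (1 / 2 : ℝ) ε ∩ spectrum (Icc (0 : ℝ) 1) φ := by
      refine ⟨?_, hx⟩
      rw [Metric.mem_ball, Real.dist_eq, abs_of_pos (by linarith)]
      linarith
    have h4 : 0 < localDim (spectrum (Icc (0 : ℝ) 1) φ) x := hball h3
    rw [localDim_above hx1] at h4
    exact lt_irrefl _ h4

end Pool.Agent.Results.MP_906def_an.JumpAtHalf
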